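import Pool.Agent.Q276.PL.AllC

/-!
# Class numbers of 100% of the real quadratic fields

Let `δ > 0`.  For 100% of the squarefree integers `d`, for 100% of the primes `d`, and for 100% of the
radicands which genus theory allows for unique factorisation (the primes, the numbers `2 p` and the
numbers `p q` with primes `p`, `q` that are 3 mod 4), the class number of the field of the square root
of `d` is at most `√d / (log d) ^ (3/2 - δ)`.
-/

set_option autoImplicit false

namespace Pool.Agent.Results.MP_321647_nt.ClassNumberBound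

open Filter Finset NumberField
open scoped Classical

/-- The class number of every quadratic field containing a square root of `d` is at most
`√d / (log d) ^ (3/2 - δ)`. -/
def ClassBound (δ : ℝ) (d : ℕ) : Prop :=
  ∀ (K : Type) [Field K] [NumberField K], Module.finrank ℚ K = 2 → (∃ x : K, x ^ 2 = (d : K)) →
    (classNumber K : ℝ) ≤ √(d : ℝ) / Real.log d ^ (3 / 2 - δ)

/-- `d = 2 p` with a prime `p ≡ 3 mod 4`. -/
def TwicePrime (d : ℕ) : Prop := ∃ p : ℕ, p.Prime ∧ p % 4 = 3 ∧ d = 2 * p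

/-- `d = p q` with two different primes `p ≡ q ≡ 3 mod 4`. -/
def PrimePair (d : ℕ) : Prop :=
  ∃ p q : ℕ, p.Prime ∧ q.Prime ∧ p < q ∧ p % 4 = 3 ∧ q % 4 = 3 ∧ d = p * q

/-- The radicands that can have unique factorisation. -/
def Candidate (d : ℕ) : Prop := d.Prime ∨ TwicePrime d ∨ PrimePair d

/-- The proportion of the numbers up to `X` with the property `F` that do not have the property `G`
tends to zero as `X` tends to infinity. -/
def AlmostAll (F G : ℕ → Prop) : Prop :=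
  Tendsto (fun X : ℕ => (((Finset.Icc 1 X).filter (fun d => F d ∧ ¬ G d)).card : ℝ) /
    (((Finset.Icc 1 X).filter F).card : ℝ)) atTop (nhds 0)

open Pool.Agent.Q276.PL

theorem card_eq (s t : Finset ℕ) (p q : ℕ → Prop) (i1 : DecidablePred p) (i2 : DecidablePred q)
    (h : ∀ d, d ∈ s ∧ p d ↔ d ∈ t ∧ q d) :
    (@Finset.filter ℕ p i1 s).card = (@Finset.filter ℕ q i2 t).card := by
  congr 1
  ext d
  rw [mem_filter, mem_filter]
  exact h d

theorem almost_of (F G F' E' : ℕ → Prop) (i1 : DecidablePred (fun d => F' d ∧ E' d))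
    (i2 : DecidablePred F') (hF : ∀ d, F' d ↔ F d) (hE : ∀ d, E' d ↔ ¬ G d)
    (h : Tendsto (fun X : ℕ =>
      ((@Finset.filter ℕ (fun d => F' d ∧ E' d) i1 (Finset.Ioc 0 X)).card : ℝ) /
        ((@Finset.filter ℕ F' i2 (Finset.Ioc 0 X)).card : ℝ)) atTop (nhds 0)) :
    AlmostAll F G := by
  unfold AlmostAll
  refine h.congr (fun X => ?_)
  have hm : ∀ d : ℕ, d ∈ Finset.Ioc 0 X ↔ d ∈ Finset.Icc 1 X := by
    intro d
    rw [mem_Ioc, mem_Icc]
    omega
  have e1 := card_eq (Finset.Ioc 0 X) (Finset.Icc 1 X) (fun d => F' d ∧ E' d)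
    (fun d => F d ∧ ¬ G d) i1 inferInstance (fun d => by rw [hm d, hF d, hE d])
  have e2 := card_eq (Finset.Ioc 0 X) (Finset.Icc 1 X) F' F i2 inferInstance
    (fun d => by rw [hm d, hF d])
  rw [e1, e2]

theorem to_rare (F G : ℕ → Prop) (h : AlmostAll F G) (E : ℕ → Prop) (hE : ∀ d, E d ↔ ¬ G d) :
    Tendsto (fun X : ℕ => (((Finset.Ioc 0 X).filter (fun d => F d ∧ E d)).card : ℝ) /
      (((Finset.Ioc 0 X).filter F).card : ℝ)) atTop (nhds 0) := by
  unfold AlmostAll at h
  refine h.congr (fun X => ?_)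
  have hm : ∀ d : ℕ, d ∈ Finset.Icc 1 X ↔ d ∈ Finset.Ioc 0 X := by
    intro d
    rw [mem_Ioc, mem_Icc]
    omega
  have e1 := card_eq (Finset.Icc 1 X) (Finset.Ioc 0 X) (fun d => F d ∧ ¬ G d)
    (fun d => F d ∧ E d) inferInstance inferInstance (fun d => by rw [hm d, hE d])
  have e2 := card_eq (Finset.Icc 1 X) (Finset.Ioc 0 X) F F inferInstance inferInstance
    (fun d => by rw [hm d])
  rw [e1, e2]

theorem good_iff (δ : ℝ) (d : ℕ) : ¬ GoodC δ d ↔ ¬ ClassBound δ d := Iff.rfl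

theorem primes_almost (δ : ℝ) (hδ : 0 < δ) : AlmostAll Nat.Prime (ClassBound δ) := by
  unfold AlmostAll
  have h := clp_true δ hδ
  refine h.congr (fun X => ?_)
  have e1 := card_eq (Finset.Icc 2 X) (Finset.Icc 1 X) (fun p => p.Prime ∧ ¬ GoodC δ p)
    (fun p => p.Prime ∧ ¬ ClassBound δ p) inferInstance inferInstance (fun d => by
      rw [good_iff δ d, mem_Icc, mem_Icc]
      constructor
      · rintro ⟨⟨h1, h2⟩, h3⟩
        exact ⟨⟨by omega, h2⟩, h3⟩
      · rintro ⟨⟨h1, h2⟩, h3⟩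
        exact ⟨⟨h3.1.two_le, h2⟩, h3⟩)
  have e2 := card_eq (Finset.Icc 2 X) (Finset.Icc 1 X) (fun p => p.Prime)
    (fun p => p.Prime) inferInstance inferInstance (fun d => by
      rw [mem_Icc, mem_Icc]
      constructor
      · rintro ⟨⟨h1, h2⟩, h3⟩
        exact ⟨⟨by omega, h2⟩, h3⟩
      · rintro ⟨⟨h1, h2⟩, h3⟩
        exact ⟨⟨h3.two_le, h2⟩, h3⟩)
  convert congrArg₂ (fun a b : ℕ => (a : ℝ) / (b : ℝ)) e1 e2

theorem pairs_almost (δ : ℝ) (hδ : 0 < δ) : AlmostAll PrimePair (ClassBound δ) :=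
  almost_of PrimePair (ClassBound δ) SemiC (fun d => ¬ GoodC δ d) _ _ (fun _ => Iff.rfl)
    (good_iff δ) (clc_true δ hδ).1

theorem twice_almost (δ : ℝ) (hδ : 0 < δ) : AlmostAll TwicePrime (ClassBound δ) :=
  almost_of TwicePrime (ClassBound δ) TwoC (fun d => ¬ GoodC δ d) _ _ (fun _ => Iff.rfl)
    (good_iff δ) (clc_true δ hδ).2

/-- the union of three families -/
theorem union_lim (F1 F2 F3 E : ℕ → Prop)
    (h1 : Tendsto (fun X : ℕ => (((Finset.Ioc 0 X).filter (fun D => F1 D ∧ E D)).card : ℝ) /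
      (((Finset.Ioc 0 X).filter F1).card : ℝ)) atTop (nhds 0))
    (h2 : Tendsto (fun X : ℕ => (((Finset.Ioc 0 X).filter (fun D => F2 D ∧ E D)).card : ℝ) /
      (((Finset.Ioc 0 X).filter F2).card : ℝ)) atTop (nhds 0))
    (h3 : Tendsto (fun X : ℕ => (((Finset.Ioc 0 X).filter (fun D => F3 D ∧ E D)).card : ℝ) /
      (((Finset.Ioc 0 X).filter F3).card : ℝ)) atTop (nhds 0)) :
    Tendsto (fun X : ℕ => (((Finset.Ioc 0 X).filter (fun D => (F1 D ∨ F2 D ∨ F3 D) ∧ E D)).card : ℝ) /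
      (((Finset.Ioc 0 X).filter (fun D => F1 D ∨ F2 D ∨ F3 D)).card : ℝ)) atTop (nhds 0) := by
  have h4 := (h1.add h2).add h3
  rw [add_zero, add_zero] at h4
  refine squeeze_zero (fun X => by positivity) (fun X => ?_) h4
  obtain ⟨d, hd⟩ : ∃ d, d = (((Finset.Ioc 0 X).filter (fun D => F1 D ∨ F2 D ∨ F3 D)).card : ℝ) :=
    ⟨_, rfl⟩
  have key : ∀ F : ℕ → Prop, (∀ D, F D → F1 D ∨ F2 D ∨ F3 D) →
      (((Finset.Ioc 0 X).filter (fun D => F D ∧ E D)).card : ℝ) / d ≤
        (((Finset.Ioc 0 X).filter (fun D => F D ∧ E D)).card : ℝ) /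
          (((Finset.Ioc 0 X).filter F).card : ℝ) := by
    intro F hF
    have e1 : ((Finset.Ioc 0 X).filter (fun D => F D ∧ E D)).card ≤
        ((Finset.Ioc 0 X).filter F).card := by
      apply card_le_card
      intro D hD
      rw [mem_filter] at hD ⊢
      exact ⟨hD.1, hD.2.1⟩
    have e2 : (((Finset.Ioc 0 X).filter F).card : ℝ) ≤ d := by
      rw [hd]
      have : ((Finset.Ioc 0 X).filter F).card ≤
          ((Finset.Ioc 0 X).filter (fun D => F1 D ∨ F2 D ∨ F3 D)).card := by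
        apply card_le_card
        intro D hD
        rw [mem_filter] at hD ⊢
        exact ⟨hD.1, hF D hD.2⟩
      exact_mod_cast this
    rcases Nat.eq_zero_or_pos ((Finset.Ioc 0 X).filter F).card with h0 | h0
    · have h5 : ((Finset.Ioc 0 X).filter (fun D => F D ∧ E D)).card = 0 := by omega
      rw [h5, Nat.cast_zero, zero_div, zero_div]
    · have h6 : (0 : ℝ) < ((Finset.Ioc 0 X).filter F).card := by exact_mod_cast h0
      exact div_le_div_of_nonneg_left (by positivity) h6 e2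
  have k1 := key F1 (fun D h => Or.inl h)
  have k2 := key F2 (fun D h => Or.inr (Or.inl h))
  have k3 := key F3 (fun D h => Or.inr (Or.inr h))
  have hsub : (Finset.Ioc 0 X).filter (fun D => (F1 D ∨ F2 D ∨ F3 D) ∧ E D) ⊆
      ((Finset.Ioc 0 X).filter (fun D => F1 D ∧ E D) ∪
        (Finset.Ioc 0 X).filter (fun D => F2 D ∧ E D)) ∪
        (Finset.Ioc 0 X).filter (fun D => F3 D ∧ E D) := by
    intro D hD
    rw [mem_filter] at hD
    rw [mem_union, mem_union, mem_filter, mem_filter, mem_filter]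
    obtain ⟨h5, h6 | h6 | h6, h7⟩ := hD
    · exact Or.inl (Or.inl ⟨h5, h6, h7⟩)
    · exact Or.inl (Or.inr ⟨h5, h6, h7⟩)
    · exact Or.inr ⟨h5, h6, h7⟩
  have hc : (((Finset.Ioc 0 X).filter (fun D => (F1 D ∨ F2 D ∨ F3 D) ∧ E D)).card : ℝ) ≤
      (((Finset.Ioc 0 X).filter (fun D => F1 D ∧ E D)).card : ℝ) +
        (((Finset.Ioc 0 X).filter (fun D => F2 D ∧ E D)).card : ℝ) +
        (((Finset.Ioc 0 X).filter (fun D => F3 D ∧ E D)).card : ℝ) := by
    have := (card_le_card hsub).trans ((card_union_le _ _).trans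
      (Nat.add_le_add_right (card_union_le _ _) _))
    exact_mod_cast this
  have hd0 : 0 ≤ d := by rw [hd]; positivity
  rw [← hd]
  calc (((Finset.Ioc 0 X).filter (fun D => (F1 D ∨ F2 D ∨ F3 D) ∧ E D)).card : ℝ) / d ≤
      ((((Finset.Ioc 0 X).filter (fun D => F1 D ∧ E D)).card : ℝ) +
        (((Finset.Ioc 0 X).filter (fun D => F2 D ∧ E D)).card : ℝ) +
        (((Finset.Ioc 0 X).filter (fun D => F3 D ∧ E D)).card : ℝ)) / d :=
        div_le_div_of_nonneg_right hc hd0
    _ = (((Finset.Ioc 0 X).filter (fun D => F1 D ∧ E D)).card : ℝ) / d +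
        (((Finset.Ioc 0 X).filter (fun D => F2 D ∧ E D)).card : ℝ) / d +
        (((Finset.Ioc 0 X).filter (fun D => F3 D ∧ E D)).card : ℝ) / d := by ring
    _ ≤ _ := add_le_add (add_le_add k1 k2) k3

theorem candidates_almost (δ : ℝ) (hδ : 0 < δ) : AlmostAll Candidate (ClassBound δ) := by
  obtain ⟨E, hE⟩ : ∃ E : ℕ → Prop, ∀ d, E d ↔ ¬ ClassBound δ d := ⟨_, fun _ => Iff.rfl⟩
  have h1 := to_rare _ _ (primes_almost δ hδ) E hE
  have h2 := to_rare _ _ (twice_almost δ hδ) E hE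
  have h3 := to_rare _ _ (pairs_almost δ hδ) E hE
  exact almost_of Candidate (ClassBound δ)
    (fun D => D.Prime ∨ TwicePrime D ∨ PrimePair D) E _ _ (fun _ => Iff.rfl) hE
    (union_lim Nat.Prime TwicePrime PrimePair E h1 h2 h3)

theorem result :
    ∀ δ : ℝ, 0 < δ →
      Tendsto (fun X : ℕ => (((Finset.Icc 1 X).filter
        (fun d => Squarefree d ∧ ¬ ClassBound δ d)).card : ℝ) / X) atTop (nhds 0) ∧
      AlmostAll Nat.Prime (ClassBound δ) ∧ AlmostAll Candidate (ClassBound δ) ∧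
        AlmostAll PrimePair (ClassBound δ) ∧ AlmostAll TwicePrime (ClassBound δ) := by
  intro δ hδ
  refine ⟨?_, primes_almost δ hδ, candidates_almost δ hδ, pairs_almost δ hδ, twice_almost δ hδ⟩
  have h1 := cln_true δ hδ
  have h2 : Tendsto (fun X : ℕ => (1 : ℝ) / X) atTop (nhds 0) :=
    tendsto_natCast_atTop_atTop.const_div_atTop 1
  have h3 := h1.add h2
  rw [add_zero] at h3
  refine squeeze_zero (fun X => by positivity) (fun X => ?_) h3
  rw [← add_div]
  apply div_le_div_of_nonneg_right _ (by positivity)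
  have hsub : (Finset.Icc 1 X).filter (fun d => Squarefree d ∧ ¬ ClassBound δ d) ⊆
      (Finset.Icc 2 X).filter (fun d => Squarefree d ∧ ¬ GoodC δ d) ∪ {1} := by
    intro d hd
    rw [mem_filter, mem_Icc] at hd
    rw [mem_union, mem_filter, mem_Icc, mem_singleton, good_iff δ d]
    by_cases h3 : 2 ≤ d
    · left
      exact ⟨⟨h3, hd.1.2⟩, hd.2.1, hd.2.2⟩
    · right
      omega
  have h4 := (card_le_card hsub).trans (card_union_le _ _)
  rw [card_singleton] at h4
  exact_mod_cast h4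

end Pool.Agent.Results.MP_321647_nt.ClassNumberBound
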