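import Pool.Agent.Q299.TPC.Fin3

/-!
# Products of random tiny prime ideals are equidistributed in the class group, for 100% of the radicands

Let `a > 2` and `0 < ε`.  The following holds for 100% of the squarefree integers `d`, for 100% of the
primes `d`, and for 100% of the radicands which genus theory allows for unique factorisation (the
primes, the numbers `2 p` and the numbers `p q` with primes `p`, `q` that are 3 mod 4).  Let `K` be
the field of the square root of `d`, `h` its class number, and let `m ≥ 500 log d / log log d`.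
Choose `m` prime ideals of norm at most `(log d)^a` independently at random.

* The class of their product is equidistributed: the sum over all classes `C` of
  `|probability of C - 1 / h|` is at most `ε`.
* Every class `C` has probability at least `(1 - ε) / h`.
* The ring of integers of `K` has unique factorisation if and only if the product is principal with
  probability at least `3 / 4`.
-/

set_option autoImplicit false

namespace Pool.Agent.Results.MP_321647_nt.RandomWalk

open Filter Finset NumberField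
open scoped Classical

/-- The number of the `m`-tuples of prime ideals of norm at most `B` whose product has the class
`C`. -/
noncomputable def walks (K : Type) [Field K] [NumberField K] (B : ℝ) (m : ℕ)
    (C : ClassGroup (𝓞 K)) : ℕ :=
  Nat.card {f : Fin m → nonZeroDivisors (Ideal (𝓞 K)) //
    (∀ i, (f i : Ideal (𝓞 K)).IsPrime ∧ (Ideal.absNorm (f i : Ideal (𝓞 K)) : ℝ) ≤ B) ∧
      ClassGroup.mk0 (∏ i, f i) = C}

/-- The number of all `m`-tuples of prime ideals of norm at most `B`. -/
noncomputable def allWalks (K : Type) [Field K] [NumberField K] (B : ℝ) (m : ℕ) : ℕ :=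
  Nat.card {f : Fin m → nonZeroDivisors (Ideal (𝓞 K)) //
    ∀ i, (f i : Ideal (𝓞 K)).IsPrime ∧ (Ideal.absNorm (f i : Ideal (𝓞 K)) : ℝ) ≤ B}

/-- The probability that the product of `m` independent random prime ideals of norm at most `B` has
the class `C`. -/
noncomputable def prob (K : Type) [Field K] [NumberField K] (B : ℝ) (m : ℕ)
    (C : ClassGroup (𝓞 K)) : ℝ := (walks K B m C : ℝ) / (allWalks K B m : ℝ)

/-- The property of the integer `d` in the theorem: the three statements hold for every quadratic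
field containing a square root of `d` and for every `m ≥ 500 log d / log log d`. -/
def Good (a ε : ℝ) (d : ℕ) : Prop :=
  ∀ (K : Type) [Field K] [NumberField K], Module.finrank ℚ K = 2 →
    (∃ x : K, x ^ 2 = (d : K)) →
    ∀ m : ℕ, 500 * (Real.log d / Real.log (Real.log d)) ≤ m →
      0 < allWalks K ((Real.log d) ^ a) m ∧
      ∑ C : ClassGroup (𝓞 K),
        |prob K ((Real.log d) ^ a) m C - 1 / (Nat.card (ClassGroup (𝓞 K)) : ℝ)| ≤ ε ∧
      (∀ C : ClassGroup (𝓞 K),
        (1 - ε) / (Nat.card (ClassGroup (𝓞 K)) : ℝ) ≤ prob K ((Real.log d) ^ a) m C) ∧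
      (UniqueFactorizationMonoid (𝓞 K) ↔ 3 / 4 ≤ prob K ((Real.log d) ^ a) m 1)

/-- `d = 2 p` with a prime `p ≡ 3 mod 4`. -/
def TwicePrime (d : ℕ) : Prop := ∃ p : ℕ, p.Prime ∧ p % 4 = 3 ∧ d = 2 * p

/-- `d = p q` with two different primes `p ≡ q ≡ 3 mod 4`. -/
def PrimePair (d : ℕ) : Prop :=
  ∃ p q : ℕ, p.Prime ∧ q.Prime ∧ p < q ∧ p % 4 = 3 ∧ q % 4 = 3 ∧ d = p * q

/-- The radicands that can have unique factorisation. -/
def Candidate (d : ℕ) : Prop := d.Prime ∨ TwicePrime d ∨ PrimePair d

/-- The proportion of the numbers up to `X` with the property `F` that do not have the property `G`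
tends to zero as `X` tends to infinity. -/
def AlmostAll (F G : ℕ → Prop) : Prop :=
  Tendsto (fun X : ℕ => (((Finset.Icc 1 X).filter (fun d => F d ∧ ¬ G d)).card : ℝ) /
    (((Finset.Icc 1 X).filter F).card : ℝ)) atTop (nhds 0)

open Pool.Agent.Q299.TPC MonoidAlgebra

section

variable (K : Type) [Field K] [NumberField K] (B : ℝ)

theorem fin_set : {P : nonZeroDivisors (Ideal (𝓞 K)) | (P : Ideal (𝓞 K)).IsPrime ∧
    (Ideal.absNorm (P : Ideal (𝓞 K)) : ℝ) ≤ B}.Finite :=
  (finite_le K B).subset fun _ hP => hP.2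

/-- the finite set of the small prime ideals -/
noncomputable def QQ : Finset (nonZeroDivisors (Ideal (𝓞 K))) := (fin_set K B).toFinset

theorem mem_QQ (P : nonZeroDivisors (Ideal (𝓞 K))) : P ∈ QQ K B ↔
    (P : Ideal (𝓞 K)).IsPrime ∧ (Ideal.absNorm (P : Ideal (𝓞 K)) : ℝ) ≤ B := by
  unfold QQ
  rw [Set.Finite.mem_toFinset]
  rfl

theorem allWalks_eq (m : ℕ) : allWalks K B m = (QQ K B).card ^ m := by
  unfold allWalks
  have h1 : (Fintype.piFinset (fun _ : Fin m => QQ K B)).card = (QQ K B).card ^ m := by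
    rw [Fintype.card_piFinset]
    simp
  rw [← h1]
  apply Nat.subtype_card
  intro f
  rw [Fintype.mem_piFinset]
  exact forall_congr' fun i => mem_QQ K B (f i)

theorem walks_eq (m : ℕ) (C : ClassGroup (𝓞 K)) : (walks K B m C : ℝ) =
    ((∑ P ∈ QQ K B, single (ClassGroup.mk0 P) (1 : ℝ)) ^ m).coeff C := by
  rw [pow_coeff_count]
  congr 1
  unfold walks
  apply Nat.subtype_card
  intro f
  rw [mem_filter, Fintype.mem_piFinset, map_prod]
  constructor
  · rintro ⟨h1, h2⟩
    exact ⟨fun i => (mem_QQ K B (f i)).1 (h1 i), h2⟩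
  · rintro ⟨h1, h2⟩
    exact ⟨fun i => (mem_QQ K B (f i)).2 (h1 i), h2⟩

theorem prob_eq (m : ℕ) (C : ClassGroup (𝓞 K)) : prob K B m C =
    (((1 / ((QQ K B).card : ℝ) ^ m)) •
      (∑ P ∈ QQ K B, single (ClassGroup.mk0 P) (1 : ℝ)) ^ m).coeff C := by
  unfold prob
  rw [walks_eq, allWalks_eq, coeff_smul, Finsupp.smul_apply, smul_eq_mul]
  push_cast
  ring

end

/-- the property of the helper files implies the property here, up to finitely many `d` -/
theorem good_of (a ε : ℝ) (hε : 0 < ε) (d : ℕ) (hd : 3 ≤ d)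
    (h : WalkG a (min ε (1 / 8)) d) : Good a ε d := by
  have hd3 : (3 : ℝ) ≤ d := by exact_mod_cast hd
  intro K _ _ hK hx m hm
  set l := Real.log d with hl
  have hl1 : 1 < l := by
    rw [hl, Real.lt_log_iff_exp_lt (by linarith)]
    have := Real.exp_one_lt_d9
    linarith
  have hlog : 0 < Real.log l := Real.log_pos hl1
  have hll : Real.log l ≤ l := by
    have := Real.log_le_sub_one_of_pos (show 0 < l by linarith)
    linarith
  have hr : 1 ≤ l / Real.log l := by
    rw [le_div_iff₀ hlog]
    linarith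
  obtain ⟨hQ, hmix⟩ := h K hK hx (QQ K (l ^ a)) (mem_QQ K (l ^ a))
  set δ := min ε (1 / 8) with hδ
  have hδ0 : 0 < δ := lt_min hε (by norm_num)
  have hδε : δ ≤ ε := min_le_left _ _
  have hδ8 : δ ≤ 1 / 8 := min_le_right _ _
  have hQr : (0 : ℝ) < (QQ K (l ^ a)).card := by exact_mod_cast hQ
  set q : ℝ := ((QQ K (l ^ a)).card : ℝ) with hq
  set S := ∑ P ∈ QQ K (l ^ a), single (ClassGroup.mk0 P) (1 : ℝ) with hS
  have hh : (Nat.card (ClassGroup (𝓞 K)) : ℝ) = (Fintype.card (ClassGroup (𝓞 K)) : ℝ) := by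
    rw [Nat.card_eq_fintype_card]
  rw [hh]
  -- normalised statement
  have hnorm : ∀ n : ℕ, 200 * (l / Real.log l) ≤ n →
      l1 ((1 / q ^ n) • S ^ n - uu (ClassGroup (𝓞 K))) ≤ δ := by
    intro n hn
    have h1 := hmix n hn
    have e : (1 / q ^ n) • S ^ n - uu (ClassGroup (𝓞 K)) =
        (1 / q ^ n) • (S ^ n - (q ^ n) • uu (ClassGroup (𝓞 K))) := by
      rw [smul_sub, smul_smul]
      have : 1 / q ^ n * q ^ n = 1 := by field_simp
      rw [this, one_smul]
    rw [e, l1_smul, abs_of_nonneg (by positivity)]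
    rw [one_div, inv_mul_le_iff₀ (by positivity)]
    linarith
  have hSnn : ∀ x, 0 ≤ S.coeff x := by
    intro x
    rw [hS, coeff_sum, Finsupp.finsetSum_apply]
    refine sum_nonneg fun P _ => ?_
    rw [coeff_single, Finsupp.single_apply]
    split_ifs <;> norm_num
  have htS : tot S = q := by
    have : ∀ U : Finset (nonZeroDivisors (Ideal (𝓞 K))),
        tot (∑ P ∈ U, single (ClassGroup.mk0 P) (1 : ℝ)) = U.card := by
      intro U
      induction U using Finset.induction_on with
      | empty =>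
        unfold tot
        simp
      | insert P s hP ih =>
        rw [sum_insert hP, tot_add, ih, tot_single, card_insert_of_notMem hP]
        push_cast
        ring
    exact this _
  have hpnn : ∀ n : ℕ, ∀ x, 0 ≤ ((1 / q ^ n) • S ^ n).coeff x := by
    intro n x
    rw [coeff_smul, Finsupp.smul_apply, smul_eq_mul]
    have := pow_coeff_nonneg hSnn n x
    positivity
  have hptot : ∀ n : ℕ, tot ((1 / q ^ n) • S ^ n) = 1 := by
    intro n
    rw [tot_smul, tot_pow, htS]
    field_simp
  have hsum : ∑ C : ClassGroup (𝓞 K), |prob K (l ^ a) m C -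
      1 / (Fintype.card (ClassGroup (𝓞 K)) : ℝ)| ≤ δ := by
    refine le_trans (le_of_eq ?_) (hnorm m (by linarith))
    unfold l1
    refine sum_congr rfl fun C _ => ?_
    rw [coeff_sub, Finsupp.sub_apply, uu_coeff, prob_eq]
  have hposf : (0 : ℝ) < Fintype.card (ClassGroup (𝓞 K)) := by
    exact_mod_cast Fintype.card_pos
  refine ⟨?_, hsum.trans hδε, ?_, ?_⟩
  · rw [allWalks_eq]
    exact pow_pos hQ m
  · intro C
    obtain ⟨n1, n2, hn12, hn1, hn2⟩ : ∃ n1 n2 : ℕ, n1 + n2 = m ∧
        200 * (l / Real.log l) ≤ n1 ∧ 200 * (l / Real.log l) ≤ n2 := by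
      refine ⟨m / 2, m - m / 2, by omega, ?_, ?_⟩
      · have h1 : (m : ℝ) ≤ 2 * ((m / 2 : ℕ) : ℝ) + 1 := by exact_mod_cast (by omega)
        linarith
      · have h1 : (m : ℝ) ≤ 2 * ((m - m / 2 : ℕ) : ℝ) := by exact_mod_cast (by omega)
        linarith
    have h1 := lower_mul (hpnn n1) (hpnn n2) (hptot n1) (hptot n2) (hnorm n1 hn1)
      (hnorm n2 hn2) C
    have e : ((1 / q ^ n1) • S ^ n1) * ((1 / q ^ n2) • S ^ n2) = (1 / q ^ m) • S ^ m := by
      rw [smul_mul_smul_comm, ← pow_add, hn12]
      congr 1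
      rw [← hn12, pow_add]
      field_simp
    rw [e] at h1
    rw [prob_eq]
    refine le_trans ?_ h1
    apply div_le_div_of_nonneg_right _ hposf.le
    linarith
  · constructor
    · intro hU
      have : IsPrincipalIdealRing (𝓞 K) :=
        IsPrincipalIdealRing.of_isDedekindDomain_of_uniqueFactorizationMonoid (𝓞 K)
      have hcard : Fintype.card (ClassGroup (𝓞 K)) = 1 := card_classGroup_eq_one_iff.2 this
      have h1 : |prob K (l ^ a) m 1 - 1 / (Fintype.card (ClassGroup (𝓞 K)) : ℝ)| ≤ δ :=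
        (single_le_sum (f := fun C => |prob K (l ^ a) m C -
          1 / (Fintype.card (ClassGroup (𝓞 K)) : ℝ)|) (fun C _ => abs_nonneg _)
          (mem_univ (1 : ClassGroup (𝓞 K)))).trans hsum
      rw [hcard] at h1
      have h2 := (abs_le.1 h1).1
      push_cast at h2
      linarith
    · intro h34
      by_contra hU
      have hcard : Fintype.card (ClassGroup (𝓞 K)) ≠ 1 := by
        intro hc
        apply hU
        have : IsPrincipalIdealRing (𝓞 K) := card_classGroup_eq_one_iff.1 hc
        infer_instance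
      have hpos : 0 < Fintype.card (ClassGroup (𝓞 K)) := Fintype.card_pos
      have h2 : (2 : ℝ) ≤ Fintype.card (ClassGroup (𝓞 K)) := by
        exact_mod_cast (by omega : 2 ≤ Fintype.card (ClassGroup (𝓞 K)))
      have h1 : |prob K (l ^ a) m 1 - 1 / (Fintype.card (ClassGroup (𝓞 K)) : ℝ)| ≤ δ :=
        (single_le_sum (f := fun C => |prob K (l ^ a) m C -
          1 / (Fintype.card (ClassGroup (𝓞 K)) : ℝ)|) (fun C _ => abs_nonneg _)
          (mem_univ (1 : ClassGroup (𝓞 K)))).trans hsum
      have h3 := (abs_le.1 h1).2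
      have h4 : 1 / (Fintype.card (ClassGroup (𝓞 K)) : ℝ) ≤ 1 / 2 :=
        one_div_le_one_div_of_le (by norm_num) h2
      linarith

theorem card_diff (a ε : ℝ) (hε : 0 < ε) (F : ℕ → Prop) (X : ℕ) :
    (((Finset.Icc 1 X).filter (fun d => F d ∧ ¬ Good a ε d)).card : ℝ) ≤
      (((Finset.Ioc 0 X).filter (fun d => F d ∧ ¬ WalkG a (min ε (1 / 8)) d)).card : ℝ) + 2 := by
  have hsub : (Finset.Icc 1 X).filter (fun d => F d ∧ ¬ Good a ε d) ⊆
      (Finset.Ioc 0 X).filter (fun d => F d ∧ ¬ WalkG a (min ε (1 / 8)) d) ∪ {1, 2} := by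
    intro d hd
    rw [mem_filter, mem_Icc] at hd
    rw [mem_union, mem_filter, mem_Ioc, mem_insert, mem_singleton]
    by_cases h3 : 3 ≤ d
    · left
      exact ⟨⟨by omega, hd.1.2⟩, hd.2.1, fun h => hd.2.2 (good_of a ε hε d h3 h)⟩
    · right
      omega
  have h1 := (card_le_card hsub).trans (card_union_le _ _)
  have h2 : ({1, 2} : Finset ℕ).card ≤ 2 := card_le_two
  exact_mod_cast h1.trans (Nat.add_le_add_left h2 _)

theorem almost (a ε : ℝ) (hε : 0 < ε) (F : ℕ → Prop)
    (hF : Tendsto (fun X : ℕ => (((Finset.Icc 1 X).filter F).card : ℝ)) atTop atTop)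
    (h : Tendsto (fun X : ℕ => (((Finset.Ioc 0 X).filter
      (fun D => F D ∧ ¬ WalkG a (min ε (1 / 8)) D)).card : ℝ) /
      (((Finset.Ioc 0 X).filter F).card : ℝ)) atTop (nhds 0)) : AlmostAll F (Good a ε) := by
  unfold AlmostAll
  have h2 : Tendsto (fun X : ℕ => (2 : ℝ) / (((Finset.Icc 1 X).filter F).card : ℝ)) atTop
      (nhds 0) := hF.const_div_atTop 2
  have h3 := h.add h2
  rw [add_zero] at h3
  refine squeeze_zero (fun X => by positivity) (fun X => ?_) h3
  have e1 : (Finset.Ioc 0 X).filter F = (Finset.Icc 1 X).filter F := by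
    congr 1
  rw [e1, ← add_div]
  exact div_le_div_of_nonneg_right (card_diff a ε hε F X) (by positivity)

theorem almost' (a ε : ℝ) (hε : 0 < ε) (F : ℕ → Prop) (hF : ∀ d, F d → 3 ≤ d)
    (h : Tendsto (fun X : ℕ => (((Finset.Ioc 0 X).filter
      (fun D => F D ∧ ¬ WalkG a (min ε (1 / 8)) D)).card : ℝ) /
      (((Finset.Ioc 0 X).filter F).card : ℝ)) atTop (nhds 0)) : AlmostAll F (Good a ε) := by
  unfold AlmostAll
  refine squeeze_zero (fun X => by positivity) (fun X => ?_) h
  have e1 : (Finset.Ioc 0 X).filter F = (Finset.Icc 1 X).filter F := by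
    congr 1
  rw [e1]
  apply div_le_div_of_nonneg_right _ (by positivity)
  have hsub : (Finset.Icc 1 X).filter (fun d => F d ∧ ¬ Good a ε d) ⊆
      (Finset.Ioc 0 X).filter (fun d => F d ∧ ¬ WalkG a (min ε (1 / 8)) d) := by
    intro d hd
    rw [mem_filter, mem_Icc] at hd
    rw [mem_filter, mem_Ioc]
    exact ⟨⟨by omega, hd.1.2⟩, hd.2.1, fun h => hd.2.2 (good_of a ε hε d (hF d hd.2.1) h)⟩
  exact_mod_cast card_le_card hsub

theorem primes_unbounded (F : ℕ → Prop) (hF : ∀ d : ℕ, d.Prime → F d) :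
    Tendsto (fun X : ℕ => (((Finset.Icc 1 X).filter F).card : ℝ)) atTop atTop := by
  refine tendsto_natCast_atTop_atTop.comp (tendsto_atTop_mono ?_ Nat.tendsto_primeCounting)
  intro X
  unfold Nat.primeCounting Nat.primeCounting'
  rw [Nat.count_eq_card_filter_range]
  apply card_le_card
  intro d hd
  rw [mem_filter, mem_range] at hd
  rw [mem_filter, mem_Icc]
  have := hd.2.two_le
  exact ⟨⟨by omega, by omega⟩, hF d hd.2⟩

theorem result :
    ∀ a ε : ℝ, 2 < a → 0 < ε →
      Tendsto (fun X : ℕ => (((Finset.Icc 1 X).filter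
        (fun d => Squarefree d ∧ ¬ Good a ε d)).card : ℝ) / X) atTop (nhds 0) ∧
      AlmostAll Nat.Prime (Good a ε) ∧ AlmostAll Candidate (Good a ε) ∧
        AlmostAll PrimePair (Good a ε) ∧ AlmostAll TwicePrime (Good a ε) := by
  intro a ε ha hε
  have hδ0 : 0 < min ε (1 / 8) := lt_min hε (by norm_num)
  have hδ1 : min ε (1 / 8) ≤ 1 := (min_le_right _ _).trans (by norm_num)
  have hE := excWalk a ha (min ε (1 / 8)) hδ0 hδ1
  have ht0 : 0 < (min ε (1 / 8) / 4) ^ 2 := by positivity
  refine ⟨?_, ?_, ?_, ?_, ?_⟩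
  · have h1 : Tendsto (fun X : ℕ => (((Finset.Icc 2 X).filter
        (fun d => Squarefree d ∧ ¬ WalkG a (min ε (1 / 8)) d)).card : ℝ) / X) atTop (nhds 0) := by
      convert gen_all a _ ha ht0 _ hE
    have h2 : Tendsto (fun X : ℕ => (2 : ℝ) / X) atTop (nhds 0) :=
      tendsto_natCast_atTop_atTop.const_div_atTop 2
    have h3 := h1.add h2
    rw [add_zero] at h3
    refine squeeze_zero (fun X => by positivity) (fun X => ?_) h3
    rw [← add_div]
    apply div_le_div_of_nonneg_right _ (by positivity)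
    have hsub : (Finset.Icc 1 X).filter (fun d => Squarefree d ∧ ¬ Good a ε d) ⊆
        (Finset.Icc 2 X).filter (fun d => Squarefree d ∧ ¬ WalkG a (min ε (1 / 8)) d) ∪
          {1, 2} := by
      intro d hd
      rw [mem_filter, mem_Icc] at hd
      rw [mem_union, mem_filter, mem_Icc, mem_insert, mem_singleton]
      by_cases h3 : 3 ≤ d
      · left
        exact ⟨⟨by omega, hd.1.2⟩, hd.2.1, fun h => hd.2.2 (good_of a ε hε d h3 h)⟩
      · right
        omega
    have h4 := (card_le_card hsub).trans (card_union_le _ _)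
    have h5 : ({1, 2} : Finset ℕ).card ≤ 2 := card_le_two
    exact_mod_cast h4.trans (Nat.add_le_add_left h5 _)
  · exact almost a ε hε Nat.Prime (primes_unbounded _ fun _ h => h)
      (by convert gen_primes a _ ha ht0 _ hE)
  · exact almost a ε hε Candidate (primes_unbounded _ fun _ h => Or.inl h)
      (by convert gen_cand a _ ha ht0 _ hE; all_goals rfl)
  · refine almost' a ε hε PrimePair ?_ (by convert gen_semi a _ ha ht0 _ hE; all_goals rfl)
    rintro d ⟨p, q, hp, hq, _, _, _, rfl⟩
    have h1 := hp.two_le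
    have h2 := hq.two_le
    nlinarith
  · refine almost' a ε hε TwicePrime ?_ (by convert gen_two a _ ha ht0 _ hE; all_goals rfl)
    rintro d ⟨p, hp, _, rfl⟩
    have h1 := hp.two_le
    omega

end Pool.Agent.Results.MP_321647_nt.RandomWalk
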