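import Pool.Agent.Q299.TPC.Fin2

/-!
# Robust generation of the class group by tiny primes, and a gap for the non-principal ones

Let `a > 2`.  The following holds for 100% of the squarefree integers `d`, for 100% of the primes `d`,
and for 100% of the radicands which genus theory allows for unique factorisation (the primes, the
numbers `2 p` and the numbers `p q` with primes `p`, `q` that are 3 mod 4).  `K` is the field of the
square root of `d`, and a small prime ideal is a prime ideal of norm at most `(log d)^a`.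

* For every proper subgroup `H` of the ideal class group the number of the small prime ideals whose
  class is not in `H` is at least `(1/(1000 a)) min((log d)^a / log log d, (log d)^(a-1) log [Cl : H])`.
* For every set `S` of at most `(log d)^(a-1) / (1000 a)` ideals, every ideal class is a product of at
  most `log d / log log d` classes of small prime ideals outside `S`.
* The ring of integers of `K` has unique factorisation if and only if less than
  `(log d)^(a-1) / (2000 a)` small prime ideals are not principal.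
-/

set_option autoImplicit false

namespace Pool.Agent.Results.MP_321647_nt.RobustGeneration

open Filter Finset NumberField
open scoped Classical

/-- The number of the prime ideals of norm at most `B` whose class is not in `H`. -/
noncomputable def outside (K : Type) [Field K] [NumberField K] (B : ℝ)
    (H : Subgroup (ClassGroup (𝓞 K))) : ℕ :=
  Set.ncard {P : nonZeroDivisors (Ideal (𝓞 K)) | (P : Ideal (𝓞 K)).IsPrime ∧
    (Ideal.absNorm (P : Ideal (𝓞 K)) : ℝ) ≤ B ∧ ClassGroup.mk0 P ∉ H}

/-- The number of the non-principal prime ideals of norm at most `B`. -/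
noncomputable def nonPrincipal (K : Type) [Field K] [NumberField K] (B : ℝ) : ℕ :=
  Set.ncard {P : Ideal (𝓞 K) | P.IsPrime ∧ (Ideal.absNorm P : ℝ) ≤ B ∧ ¬ P.IsPrincipal}

/-- Every proper subgroup of the class group misses many small prime ideals. -/
def SubgroupsMissMany (K : Type) [Field K] [NumberField K] (a l : ℝ) : Prop :=
  ∀ H : Subgroup (ClassGroup (𝓞 K)), H ≠ ⊤ →
    1 / (1000 * a) * min (l ^ a / Real.log l) (l ^ (a - 1) * Real.log H.index) ≤
      outside K (l ^ a) H

/-- Every ideal class is a product of few classes of small prime ideals outside a given set. -/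
def RobustProducts (K : Type) [Field K] [NumberField K] (a l : ℝ) : Prop :=
  ∀ S : Finset (nonZeroDivisors (Ideal (𝓞 K))), (S.card : ℝ) ≤ l ^ (a - 1) / (1000 * a) →
    ∀ C : ClassGroup (𝓞 K), ∃ L : Multiset (nonZeroDivisors (Ideal (𝓞 K))),
      (∀ P ∈ L, (P : Ideal (𝓞 K)).IsPrime ∧
        (Ideal.absNorm (P : Ideal (𝓞 K)) : ℝ) ≤ l ^ a ∧ P ∉ S) ∧
      (L.card : ℝ) ≤ l / Real.log l ∧ (L.map (fun P => ClassGroup.mk0 P)).prod = C

/-- Unique factorisation holds if and only if few small prime ideals are not principal. -/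
def DecidedByCount (K : Type) [Field K] [NumberField K] (a l : ℝ) : Prop :=
  UniqueFactorizationMonoid (𝓞 K) ↔ (nonPrincipal K (l ^ a) : ℝ) < l ^ (a - 1) / (2000 * a)

/-- The property of the integer `d` in the theorem: all three statements hold for every quadratic
field containing a square root of `d`. -/
def Good (a : ℝ) (d : ℕ) : Prop :=
  ∀ (K : Type) [Field K] [NumberField K], Module.finrank ℚ K = 2 →
    (∃ x : K, x ^ 2 = (d : K)) →
    SubgroupsMissMany K a (Real.log d) ∧ RobustProducts K a (Real.log d) ∧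
      DecidedByCount K a (Real.log d)

/-- `d = 2 p` with a prime `p ≡ 3 mod 4`. -/
def TwicePrime (d : ℕ) : Prop := ∃ p : ℕ, p.Prime ∧ p % 4 = 3 ∧ d = 2 * p

/-- `d = p q` with two different primes `p ≡ q ≡ 3 mod 4`. -/
def PrimePair (d : ℕ) : Prop :=
  ∃ p q : ℕ, p.Prime ∧ q.Prime ∧ p < q ∧ p % 4 = 3 ∧ q % 4 = 3 ∧ d = p * q

/-- The radicands that can have unique factorisation. -/
def Candidate (d : ℕ) : Prop := d.Prime ∨ TwicePrime d ∨ PrimePair d

/-- The proportion of the numbers up to `X` with the property `F` that do not have the property `G`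
tends to zero as `X` tends to infinity. -/
def AlmostAll (F G : ℕ → Prop) : Prop :=
  Tendsto (fun X : ℕ => (((Finset.Icc 1 X).filter (fun d => F d ∧ ¬ G d)).card : ℝ) /
    (((Finset.Icc 1 X).filter F).card : ℝ)) atTop (nhds 0)

open Pool.Agent.Q299.TPC

/-- The non-principal prime ideals are those outside the trivial subgroup. -/
theorem nonPrincipal_eq (K : Type) [Field K] [NumberField K] (B : ℝ) :
    nonPrincipal K B = outside K B ⊥ := by
  unfold nonPrincipal outside
  symm
  refine Set.ncard_congr (fun P _ => (P : Ideal (𝓞 K))) ?_ ?_ ?_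
  · rintro P ⟨h1, h2, h3⟩
    refine ⟨h1, h2, fun h4 => h3 ?_⟩
    rw [Subgroup.mem_bot, ClassGroup.mk0_eq_one_iff]
    exact h4
  · intro P Q _ _ h
    exact Subtype.ext h
  · rintro P ⟨h1, h2, h3⟩
    have hP0 : P ≠ ⊥ := by
      rintro rfl
      exact h3 ⟨0, by simp⟩
    refine ⟨⟨P, mem_nonZeroDivisors_of_ne_zero hP0⟩, ⟨h1, h2, fun h4 => h3 ?_⟩, rfl⟩
    rw [Subgroup.mem_bot, ClassGroup.mk0_eq_one_iff] at h4
    exact h4

theorem decided (K : Type) [Field K] [NumberField K] (a l : ℝ) (ha : 2 < a) (hl : 1 < l)
    (hll : Real.log l ≤ l) (h : SubgroupsMissMany K a l) : DecidedByCount K a l := by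
  have hl0 : 0 < l := by linarith
  have hlog : 0 < Real.log l := Real.log_pos hl
  unfold DecidedByCount
  constructor
  · intro hU
    have : IsPrincipalIdealRing (𝓞 K) :=
      IsPrincipalIdealRing.of_isDedekindDomain_of_uniqueFactorizationMonoid (𝓞 K)
    have h0 : nonPrincipal K (l ^ a) = 0 := by
      unfold nonPrincipal
      have : {P : Ideal (𝓞 K) | P.IsPrime ∧ (Ideal.absNorm P : ℝ) ≤ l ^ a ∧ ¬ P.IsPrincipal} =
          ∅ := by
        ext P
        constructor
        · rintro ⟨_, _, h3⟩
          exact absurd (IsPrincipalIdealRing.principal P) h3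
        · intro h3
          exact absurd h3 (Set.notMem_empty P)
      rw [this, Set.ncard_empty]
    rw [h0]
    push_cast
    positivity
  · intro hlt
    by_contra hU
    have hbot : (⊥ : Subgroup (ClassGroup (𝓞 K))) ≠ ⊤ := by
      intro hbt
      apply hU
      have hcard : Fintype.card (ClassGroup (𝓞 K)) = 1 := by
        rw [Fintype.card_eq_one_iff]
        refine ⟨1, fun C => ?_⟩
        have : C ∈ (⊥ : Subgroup (ClassGroup (𝓞 K))) := by rw [hbt]; exact Subgroup.mem_top C
        exact Subgroup.mem_bot.1 this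
      have : IsPrincipalIdealRing (𝓞 K) := by
        rw [← card_classGroup_eq_one_iff]
        exact hcard
      infer_instance
    have h1 := h ⊥ hbot
    rw [← nonPrincipal_eq] at h1
    have hidx : 2 ≤ (⊥ : Subgroup (ClassGroup (𝓞 K))).index := by
      have h5 : (⊥ : Subgroup (ClassGroup (𝓞 K))).index ≠ 1 := fun h =>
        hbot (Subgroup.index_eq_one.1 h)
      have h6 : (⊥ : Subgroup (ClassGroup (𝓞 K))).index ≠ 0 := Subgroup.index_ne_zero_of_finite
      omega
    have hidx2 : (2 : ℝ) ≤ ((⊥ : Subgroup (ClassGroup (𝓞 K))).index : ℝ) := by exact_mod_cast hidx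
    have hlog2 : 1 / 2 ≤ Real.log ((⊥ : Subgroup (ClassGroup (𝓞 K))).index : ℝ) := by
      have h2 := Real.log_le_log (by norm_num : (0 : ℝ) < 2) hidx2
      have := Real.log_two_gt_d9
      linarith
    have hla : l ^ a = l ^ (a - 1) * l := by
      rw [← Real.rpow_add_one hl0.ne']
      congr 1
      ring
    have hl1 : 0 < l ^ (a - 1) := by positivity
    have h2 : l ^ (a - 1) * (1 / 2) ≤
        min (l ^ a / Real.log l)
          (l ^ (a - 1) * Real.log ((⊥ : Subgroup (ClassGroup (𝓞 K))).index : ℝ)) := by
      apply le_min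
      · rw [le_div_iff₀ hlog, hla, mul_assoc]
        apply mul_le_mul_of_nonneg_left _ hl1.le
        linarith
      · exact mul_le_mul_of_nonneg_left hlog2 hl1.le
    have h3 : l ^ (a - 1) / (2000 * a) ≤ (nonPrincipal K (l ^ a) : ℝ) := by
      refine le_trans ?_ h1
      have ha0 : 0 < a := by linarith
      calc l ^ (a - 1) / (2000 * a) = 1 / (1000 * a) * (l ^ (a - 1) * (1 / 2)) := by
            field_simp
            norm_num
        _ ≤ _ := mul_le_mul_of_nonneg_left h2 (by positivity)
    linarith

/-- the property of the helper files implies the property here, up to finitely many `d` -/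
theorem good_of (a : ℝ) (ha : 2 < a) (d : ℕ) (hd : 3 ≤ d) (h : RobG a d) : Good a d := by
  have hd3 : (3 : ℝ) ≤ d := by exact_mod_cast hd
  have hl : 1 < Real.log d := by
    rw [Real.lt_log_iff_exp_lt (by linarith)]
    have := Real.exp_one_lt_d9
    linarith
  have hll : Real.log (Real.log d) ≤ Real.log d := by
    have := Real.log_le_sub_one_of_pos (show 0 < Real.log d by linarith)
    linarith
  intro K _ _ hK hx
  obtain ⟨h1, h2⟩ := h K hK hx
  exact ⟨h1, h2, decided K a _ ha hl hll h1⟩

theorem card_diff (a : ℝ) (ha : 2 < a) (F : ℕ → Prop) (X : ℕ) :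
    (((Finset.Icc 1 X).filter (fun d => F d ∧ ¬ Good a d)).card : ℝ) ≤
      (((Finset.Ioc 0 X).filter (fun d => F d ∧ ¬ RobG a d)).card : ℝ) + 2 := by
  have hsub : (Finset.Icc 1 X).filter (fun d => F d ∧ ¬ Good a d) ⊆
      (Finset.Ioc 0 X).filter (fun d => F d ∧ ¬ RobG a d) ∪ {1, 2} := by
    intro d hd
    rw [mem_filter, mem_Icc] at hd
    rw [mem_union, mem_filter, mem_Ioc, mem_insert, mem_singleton]
    by_cases h3 : 3 ≤ d
    · left
      exact ⟨⟨by omega, hd.1.2⟩, hd.2.1, fun h => hd.2.2 (good_of a ha d h3 h)⟩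
    · right
      omega
  have h1 := (card_le_card hsub).trans (card_union_le _ _)
  have h2 : ({1, 2} : Finset ℕ).card ≤ 2 := card_le_two
  exact_mod_cast h1.trans (Nat.add_le_add_left h2 _)

theorem almost (a : ℝ) (ha : 2 < a) (F : ℕ → Prop)
    (hF : Tendsto (fun X : ℕ => (((Finset.Icc 1 X).filter F).card : ℝ)) atTop atTop)
    (h : Tendsto (fun X : ℕ => (((Finset.Ioc 0 X).filter
      (fun D => F D ∧ ¬ RobG a D)).card : ℝ) /
      (((Finset.Ioc 0 X).filter F).card : ℝ)) atTop (nhds 0)) : AlmostAll F (Good a) := by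
  unfold AlmostAll
  have h2 : Tendsto (fun X : ℕ => (2 : ℝ) / (((Finset.Icc 1 X).filter F).card : ℝ)) atTop
      (nhds 0) := hF.const_div_atTop 2
  have h3 := h.add h2
  rw [add_zero] at h3
  refine squeeze_zero (fun X => by positivity) (fun X => ?_) h3
  have e1 : (Finset.Ioc 0 X).filter F = (Finset.Icc 1 X).filter F := by
    congr 1
  rw [e1, ← add_div]
  exact div_le_div_of_nonneg_right (card_diff a ha F X) (by positivity)

theorem almost' (a : ℝ) (ha : 2 < a) (F : ℕ → Prop) (hF : ∀ d, F d → 3 ≤ d)
    (h : Tendsto (fun X : ℕ => (((Finset.Ioc 0 X).filter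
      (fun D => F D ∧ ¬ RobG a D)).card : ℝ) /
      (((Finset.Ioc 0 X).filter F).card : ℝ)) atTop (nhds 0)) : AlmostAll F (Good a) := by
  unfold AlmostAll
  refine squeeze_zero (fun X => by positivity) (fun X => ?_) h
  have e1 : (Finset.Ioc 0 X).filter F = (Finset.Icc 1 X).filter F := by
    congr 1
  rw [e1]
  apply div_le_div_of_nonneg_right _ (by positivity)
  have hsub : (Finset.Icc 1 X).filter (fun d => F d ∧ ¬ Good a d) ⊆
      (Finset.Ioc 0 X).filter (fun d => F d ∧ ¬ RobG a d) := by
    intro d hd
    rw [mem_filter, mem_Icc] at hd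
    rw [mem_filter, mem_Ioc]
    exact ⟨⟨by omega, hd.1.2⟩, hd.2.1, fun h => hd.2.2 (good_of a ha d (hF d hd.2.1) h)⟩
  exact_mod_cast card_le_card hsub

theorem primes_unbounded (F : ℕ → Prop) (hF : ∀ d : ℕ, d.Prime → F d) :
    Tendsto (fun X : ℕ => (((Finset.Icc 1 X).filter F).card : ℝ)) atTop atTop := by
  refine tendsto_natCast_atTop_atTop.comp (tendsto_atTop_mono ?_ Nat.tendsto_primeCounting)
  intro X
  unfold Nat.primeCounting Nat.primeCounting'
  rw [Nat.count_eq_card_filter_range]
  apply card_le_card
  intro d hd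
  rw [mem_filter, mem_range] at hd
  rw [mem_filter, mem_Icc]
  have := hd.2.two_le
  exact ⟨⟨by omega, by omega⟩, hF d hd.2⟩

theorem result :
    ∀ a : ℝ, 2 < a →
      Tendsto (fun X : ℕ => (((Finset.Icc 1 X).filter
        (fun d => Squarefree d ∧ ¬ Good a d)).card : ℝ) / X) atTop (nhds 0) ∧
      AlmostAll Nat.Prime (Good a) ∧ AlmostAll Candidate (Good a) ∧
        AlmostAll PrimePair (Good a) ∧ AlmostAll TwicePrime (Good a) := by
  intro a ha
  refine ⟨?_, ?_, ?_, ?_, ?_⟩
  · have h1 := rob_all a ha
    have h2 : Tendsto (fun X : ℕ => (2 : ℝ) / X) atTop (nhds 0) :=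
      tendsto_natCast_atTop_atTop.const_div_atTop 2
    have h3 := h1.add h2
    rw [add_zero] at h3
    refine squeeze_zero (fun X => by positivity) (fun X => ?_) h3
    rw [← add_div]
    apply div_le_div_of_nonneg_right _ (by positivity)
    have hsub : (Finset.Icc 1 X).filter (fun d => Squarefree d ∧ ¬ Good a d) ⊆
        (Finset.Icc 2 X).filter (fun d => Squarefree d ∧ ¬ RobG a d) ∪ {1, 2} := by
      intro d hd
      rw [mem_filter, mem_Icc] at hd
      rw [mem_union, mem_filter, mem_Icc, mem_insert, mem_singleton]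
      by_cases h3 : 3 ≤ d
      · left
        exact ⟨⟨by omega, hd.1.2⟩, hd.2.1, fun h => hd.2.2 (good_of a ha d h3 h)⟩
      · right
        omega
    have h4 := (card_le_card hsub).trans (card_union_le _ _)
    have h5 : ({1, 2} : Finset ℕ).card ≤ 2 := card_le_two
    exact_mod_cast h4.trans (Nat.add_le_add_left h5 _)
  · exact almost a ha Nat.Prime (primes_unbounded _ fun _ h => h)
      (by convert rob_primes a ha)
  · exact almost a ha Candidate (primes_unbounded _ fun _ h => Or.inl h)
      (by convert rob_cand a ha; all_goals rfl)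
  · refine almost' a ha PrimePair ?_ (rob_semi a ha)
    rintro d ⟨p, q, hp, hq, _, _, _, rfl⟩
    have h1 := hp.two_le
    have h2 := hq.two_le
    nlinarith
  · refine almost' a ha TwicePrime ?_ (rob_two a ha)
    rintro d ⟨p, hp, _, rfl⟩
    have h1 := hp.two_le
    omega

end Pool.Agent.Results.MP_321647_nt.RobustGeneration
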