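import Pool.Agent.Q299.TPC.Fin3
import Pool.Agent.Q201.RG.Sub2

/-!
# Products of the subsets of a few random tiny prime ideals are equidistributed in the class group

Let `a > 2` and `0 < ε ≤ 1`.  The following holds for 100% of the squarefree integers `d`, for 100% of
the primes `d`, and for 100% of the radicands which genus theory allows for unique factorisation (the
primes, the numbers `2 p` and the numbers `p q` with primes `p`, `q` that are 3 mod 4).  Let `K` be
the field of the square root of `d`, `h` its class number, and let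
`m ≥ 25000 a (log d + log (1/ε)) log d / log log d`.  For at least the proportion `1 - ε` of the
`m`-tuples `P₁, …, Pₘ` of prime ideals of norm at most `(log d)^a`, the `2^m` products of subsets of
`P₁, …, Pₘ` are equidistributed in the class group: for every ideal class `C` the number of the
subsets `A` of `{1, …, m}` for which the product of the `Pᵢ`, `i ∈ A`, has the class `C` differs from
`2^m / h` by at most `ε 2^m / h`.
-/

set_option autoImplicit false

namespace Pool.Agent.Results.MP_321647_nt.SubsetProducts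

open Filter Finset NumberField
open scoped Classical

/-- The number of the `m`-tuples of prime ideals of norm at most `B`. -/
noncomputable def allTuples (K : Type) [Field K] [NumberField K] (B : ℝ) (m : ℕ) : ℕ :=
  Nat.card {f : Fin m → nonZeroDivisors (Ideal (𝓞 K)) //
    ∀ i, (f i : Ideal (𝓞 K)).IsPrime ∧ (Ideal.absNorm (f i : Ideal (𝓞 K)) : ℝ) ≤ B}

/-- The number of the subsets `A` of the indices for which the product of the ideals `f i`, `i ∈ A`,
has the class `C`. -/
noncomputable def subsetCount (K : Type) [Field K] [NumberField K] {m : ℕ}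
    (f : Fin m → nonZeroDivisors (Ideal (𝓞 K))) (C : ClassGroup (𝓞 K)) : ℕ :=
  Nat.card {A : Finset (Fin m) // ClassGroup.mk0 (∏ i ∈ A, f i) = C}

/-- The subset products of `f` are equidistributed in the class group, up to the relative error
`ε`. -/
def Equidistributed (K : Type) [Field K] [NumberField K] (ε : ℝ) {m : ℕ}
    (f : Fin m → nonZeroDivisors (Ideal (𝓞 K))) : Prop :=
  ∀ C : ClassGroup (𝓞 K), |(subsetCount K f C : ℝ) - 2 ^ m / Nat.card (ClassGroup (𝓞 K))| ≤
    ε * (2 ^ m / Nat.card (ClassGroup (𝓞 K)))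

/-- The number of the `m`-tuples of prime ideals of norm at most `B` whose subset products are
equidistributed. -/
noncomputable def goodTuples (K : Type) [Field K] [NumberField K] (B ε : ℝ) (m : ℕ) : ℕ :=
  Nat.card {f : Fin m → nonZeroDivisors (Ideal (𝓞 K)) //
    (∀ i, (f i : Ideal (𝓞 K)).IsPrime ∧ (Ideal.absNorm (f i : Ideal (𝓞 K)) : ℝ) ≤ B) ∧
      Equidistributed K ε f}

/-- The property of the integer `d` in the theorem. -/
def Good (a ε : ℝ) (d : ℕ) : Prop :=
  ∀ (K : Type) [Field K] [NumberField K], Module.finrank ℚ K = 2 →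
    (∃ x : K, x ^ 2 = (d : K)) → ∀ m : ℕ,
      25000 * a * (Real.log d / Real.log (Real.log d)) * (Real.log d + Real.log (1 / ε)) ≤ m →
        0 < allTuples K ((Real.log d) ^ a) m ∧
        (1 - ε) * allTuples K ((Real.log d) ^ a) m ≤ goodTuples K ((Real.log d) ^ a) ε m

/-- `d = 2 p` with a prime `p ≡ 3 mod 4`. -/
def TwicePrime (d : ℕ) : Prop := ∃ p : ℕ, p.Prime ∧ p % 4 = 3 ∧ d = 2 * p

/-- `d = p q` with two different primes `p ≡ q ≡ 3 mod 4`. -/
def PrimePair (d : ℕ) : Prop :=
  ∃ p q : ℕ, p.Prime ∧ q.Prime ∧ p < q ∧ p % 4 = 3 ∧ q % 4 = 3 ∧ d = p * q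

/-- The radicands that can have unique factorisation. -/
def Candidate (d : ℕ) : Prop := d.Prime ∨ TwicePrime d ∨ PrimePair d

/-- The proportion of the numbers up to `X` with the property `F` that do not have the property `G`
tends to zero as `X` tends to infinity. -/
def AlmostAll (F G : ℕ → Prop) : Prop :=
  Tendsto (fun X : ℕ => (((Finset.Icc 1 X).filter (fun d => F d ∧ ¬ G d)).card : ℝ) /
    (((Finset.Icc 1 X).filter F).card : ℝ)) atTop (nhds 0)

open Pool.Agent.Q299.TPC

section

variable (K : Type) [Field K] [NumberField K] (B : ℝ)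

theorem fin_set : {P : nonZeroDivisors (Ideal (𝓞 K)) | (P : Ideal (𝓞 K)).IsPrime ∧
    (Ideal.absNorm (P : Ideal (𝓞 K)) : ℝ) ≤ B}.Finite :=
  (finite_le K B).subset fun _ hP => hP.2

/-- the finite set of the small prime ideals -/
noncomputable def QQ : Finset (nonZeroDivisors (Ideal (𝓞 K))) := (fin_set K B).toFinset

theorem mem_QQ (P : nonZeroDivisors (Ideal (𝓞 K))) : P ∈ QQ K B ↔
    (P : Ideal (𝓞 K)).IsPrime ∧ (Ideal.absNorm (P : Ideal (𝓞 K)) : ℝ) ≤ B := by
  unfold QQ
  rw [Set.Finite.mem_toFinset]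
  rfl

theorem allTuples_eq (m : ℕ) : allTuples K B m = (QQ K B).card ^ m := by
  unfold allTuples
  have h1 : (Fintype.piFinset (fun _ : Fin m => QQ K B)).card = (QQ K B).card ^ m := by
    rw [Fintype.card_piFinset]
    simp
  rw [← h1]
  apply Nat.subtype_card
  intro f
  rw [Fintype.mem_piFinset]
  exact forall_congr' fun i => mem_QQ K B (f i)

theorem subsetCount_eq {m : ℕ} (f : Fin m → nonZeroDivisors (Ideal (𝓞 K)))
    (C : ClassGroup (𝓞 K)) :
    subsetCount K f C = Q201.RG.subs (fun P => ClassGroup.mk0 P) f C := by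
  unfold subsetCount Q201.RG.subs
  apply Nat.subtype_card
  intro A
  rw [mem_filter, map_prod]
  simp

theorem goodTuples_eq (ε : ℝ) (m : ℕ) : goodTuples K B ε m =
    ((Fintype.piFinset fun _ : Fin m => QQ K B).filter fun f =>
      ∀ x : ClassGroup (𝓞 K), |(Q201.RG.subs (fun P => ClassGroup.mk0 P) f x : ℝ) -
        2 ^ m / Fintype.card (ClassGroup (𝓞 K))| ≤
          ε * (2 ^ m / Fintype.card (ClassGroup (𝓞 K)))).card := by
  unfold goodTuples
  apply Nat.subtype_card
  intro f
  rw [mem_filter, Fintype.mem_piFinset]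
  unfold Equidistributed
  rw [Nat.card_eq_fintype_card]
  simp only [subsetCount_eq, mem_QQ]

end

/-- the properties of the helper files imply the property here -/
theorem good_of (a ε : ℝ) (ha : 2 < a) (hε : 0 < ε) (hε1 : ε ≤ 1) (d : ℕ) (hd : 3 ≤ d)
    (h : RobG a d) (hW : WalkG a (1 / 8) d) : Good a ε d := by
  have hd3 : (3 : ℝ) ≤ d := by exact_mod_cast hd
  have hl : 1.098 ≤ Real.log d := by
    have h1 := Real.log_le_log (by norm_num : (0 : ℝ) < 3) hd3
    have h2 := Real.log_three_gt_d9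
    linarith
  intro K _ _ hK hx m hm
  obtain ⟨h1, h2⟩ := h K hK hx
  set l := Real.log d with hld
  have hl0 : 0 < l := by linarith
  obtain ⟨hQ, hmix⟩ := hW K hK hx (QQ K (l ^ a)) (mem_QQ K (l ^ a))
  have hcard := Q201.RG.card_bound K hK ha hl (fun C => by
    obtain ⟨L, hL1, hL2, hL3⟩ := h2 ∅ (by
      rw [card_empty, Nat.cast_zero]
      positivity) C
    exact ⟨L, fun P hP => ⟨(hL1 P hP).1, (hL1 P hP).2.1⟩, hL2, hL3⟩) (QQ K (l ^ a))
    (mem_QQ K (l ^ a))
  have h3 := Q201.RG.field_subs (QQ K (l ^ a)) (fun P => ClassGroup.mk0 P) ha hl hε hε1 hcard hQ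
    hmix m hm
  have h5 : (Fintype.piFinset (fun _ : Fin m => QQ K (l ^ a))).card = (QQ K (l ^ a)).card ^ m := by
    rw [Fintype.card_piFinset]
    simp
  refine ⟨by rw [allTuples_eq]; exact pow_pos hQ m, ?_⟩
  rw [allTuples_eq, goodTuples_eq]
  have h4 := card_filter_add_card_filter_not (s := Fintype.piFinset fun _ : Fin m => QQ K (l ^ a))
    (fun f => ∀ x : ClassGroup (𝓞 K), |(Q201.RG.subs (fun P => ClassGroup.mk0 P) f x : ℝ) -
        2 ^ m / Fintype.card (ClassGroup (𝓞 K))| ≤
          ε * (2 ^ m / Fintype.card (ClassGroup (𝓞 K))))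
  rw [h5] at h4
  have h8 : ((((Fintype.piFinset fun _ : Fin m => QQ K (l ^ a)).filter fun f =>
      ∀ x : ClassGroup (𝓞 K), |(Q201.RG.subs (fun P => ClassGroup.mk0 P) f x : ℝ) -
        2 ^ m / Fintype.card (ClassGroup (𝓞 K))| ≤
          ε * (2 ^ m / Fintype.card (ClassGroup (𝓞 K)))).card : ℝ)) +
      (((Fintype.piFinset fun _ : Fin m => QQ K (l ^ a)).filter fun f =>
      ¬ ∀ x : ClassGroup (𝓞 K), |(Q201.RG.subs (fun P => ClassGroup.mk0 P) f x : ℝ) -
        2 ^ m / Fintype.card (ClassGroup (𝓞 K))| ≤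
          ε * (2 ^ m / Fintype.card (ClassGroup (𝓞 K)))).card : ℝ) =
      ((QQ K (l ^ a)).card : ℝ) ^ m := by
    exact_mod_cast h4
  push_cast
  linarith

/-- the exceptional numbers -/
theorem sub_union (a ε : ℝ) (ha : 2 < a) (hε : 0 < ε) (hε1 : ε ≤ 1) (F : ℕ → Prop) (X : ℕ) :
    (Finset.Icc 1 X).filter (fun d => F d ∧ ¬ Good a ε d) ⊆
      ((Finset.Icc 1 X).filter (fun d => F d ∧ ¬ RobG a d) ∪
        (Finset.Icc 1 X).filter (fun d => F d ∧ ¬ WalkG a (1 / 8) d)) ∪
          (Finset.Icc 1 X).filter (fun d => F d ∧ d < 3) := by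
  intro d hd
  rw [mem_filter] at hd
  rw [mem_union, mem_union, mem_filter, mem_filter, mem_filter]
  by_cases h3 : 3 ≤ d
  · by_cases h1 : RobG a d
    · exact Or.inl (Or.inr ⟨hd.1, hd.2.1, fun h2 => hd.2.2 (good_of a ε ha hε hε1 d h3 h1 h2)⟩)
    · exact Or.inl (Or.inl ⟨hd.1, hd.2.1, h1⟩)
  · exact Or.inr ⟨hd.1, hd.2.1, by omega⟩

theorem small_card (F : ℕ → Prop) (X : ℕ) :
    ((Finset.Icc 1 X).filter (fun d => F d ∧ d < 3)).card ≤ 2 := by
  refine (card_le_card (t := {1, 2}) fun d hd => ?_).trans card_le_two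
  rw [mem_filter, mem_Icc] at hd
  rw [mem_insert, mem_singleton]
  omega

theorem card_diff (a ε : ℝ) (ha : 2 < a) (hε : 0 < ε) (hε1 : ε ≤ 1) (F : ℕ → Prop) (X : ℕ) :
    (((Finset.Icc 1 X).filter (fun d => F d ∧ ¬ Good a ε d)).card : ℝ) ≤
      (((Finset.Icc 1 X).filter (fun d => F d ∧ ¬ RobG a d)).card : ℝ) +
        (((Finset.Icc 1 X).filter (fun d => F d ∧ ¬ WalkG a (1 / 8) d)).card : ℝ) + 2 := by
  have h1 := card_le_card (sub_union a ε ha hε hε1 F X)
  have h2 := card_union_le ((Finset.Icc 1 X).filter (fun d => F d ∧ ¬ RobG a d) ∪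
        (Finset.Icc 1 X).filter (fun d => F d ∧ ¬ WalkG a (1 / 8) d))
          ((Finset.Icc 1 X).filter (fun d => F d ∧ d < 3))
  have h3 := card_union_le ((Finset.Icc 1 X).filter (fun d => F d ∧ ¬ RobG a d))
        ((Finset.Icc 1 X).filter (fun d => F d ∧ ¬ WalkG a (1 / 8) d))
  have h4 := small_card F X
  exact_mod_cast (by omega)

theorem almost (a ε : ℝ) (ha : 2 < a) (hε : 0 < ε) (hε1 : ε ≤ 1) (F : ℕ → Prop)
    (hF : Tendsto (fun X : ℕ => (((Finset.Icc 1 X).filter F).card : ℝ)) atTop atTop)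
    (h : Tendsto (fun X : ℕ => (((Finset.Icc 1 X).filter
      (fun D => F D ∧ ¬ RobG a D)).card : ℝ) /
      (((Finset.Icc 1 X).filter F).card : ℝ)) atTop (nhds 0))
    (hW : Tendsto (fun X : ℕ => (((Finset.Icc 1 X).filter
      (fun D => F D ∧ ¬ WalkG a (1 / 8) D)).card : ℝ) /
      (((Finset.Icc 1 X).filter F).card : ℝ)) atTop (nhds 0)) : AlmostAll F (Good a ε) := by
  unfold AlmostAll
  have h2 : Tendsto (fun X : ℕ => (2 : ℝ) / (((Finset.Icc 1 X).filter F).card : ℝ)) atTop
      (nhds 0) := hF.const_div_atTop 2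
  have h3 := (h.add hW).add h2
  rw [add_zero, add_zero] at h3
  refine squeeze_zero (fun X => by positivity) (fun X => ?_) h3
  rw [← add_div, ← add_div]
  exact div_le_div_of_nonneg_right (card_diff a ε ha hε hε1 F X) (by positivity)

theorem almost' (a ε : ℝ) (ha : 2 < a) (hε : 0 < ε) (hε1 : ε ≤ 1) (F : ℕ → Prop)
    (hF : ∀ d, F d → 3 ≤ d)
    (h : Tendsto (fun X : ℕ => (((Finset.Icc 1 X).filter
      (fun D => F D ∧ ¬ RobG a D)).card : ℝ) /
      (((Finset.Icc 1 X).filter F).card : ℝ)) atTop (nhds 0))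
    (hW : Tendsto (fun X : ℕ => (((Finset.Icc 1 X).filter
      (fun D => F D ∧ ¬ WalkG a (1 / 8) D)).card : ℝ) /
      (((Finset.Icc 1 X).filter F).card : ℝ)) atTop (nhds 0)) : AlmostAll F (Good a ε) := by
  unfold AlmostAll
  have h3 := h.add hW
  rw [add_zero] at h3
  refine squeeze_zero (fun X => by positivity) (fun X => ?_) h3
  rw [← add_div]
  apply div_le_div_of_nonneg_right _ (by positivity)
  have h1 := card_le_card (sub_union a ε ha hε hε1 F X)
  have h2 := card_union_le ((Finset.Icc 1 X).filter (fun d => F d ∧ ¬ RobG a d) ∪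
        (Finset.Icc 1 X).filter (fun d => F d ∧ ¬ WalkG a (1 / 8) d))
          ((Finset.Icc 1 X).filter (fun d => F d ∧ d < 3))
  have h4 := card_union_le ((Finset.Icc 1 X).filter (fun d => F d ∧ ¬ RobG a d))
        ((Finset.Icc 1 X).filter (fun d => F d ∧ ¬ WalkG a (1 / 8) d))
  have h5 : ((Finset.Icc 1 X).filter (fun d => F d ∧ d < 3)).card = 0 := by
    rw [card_eq_zero, filter_eq_empty_iff]
    rintro d _ ⟨hd1, hd2⟩
    have := hF d hd1
    omega
  exact_mod_cast (by omega)

theorem primes_unbounded (F : ℕ → Prop) (hF : ∀ d : ℕ, d.Prime → F d) :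
    Tendsto (fun X : ℕ => (((Finset.Icc 1 X).filter F).card : ℝ)) atTop atTop := by
  refine tendsto_natCast_atTop_atTop.comp (tendsto_atTop_mono ?_ Nat.tendsto_primeCounting)
  intro X
  unfold Nat.primeCounting Nat.primeCounting'
  rw [Nat.count_eq_card_filter_range]
  apply card_le_card
  intro d hd
  rw [mem_filter, mem_range] at hd
  rw [mem_filter, mem_Icc]
  have := hd.2.two_le
  exact ⟨⟨by omega, by omega⟩, hF d hd.2⟩

theorem icc_ioc (X : ℕ) : Finset.Icc 1 X = Finset.Ioc 0 X := by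
  ext d; rw [mem_Icc, mem_Ioc]; omega

theorem result :
    ∀ a ε : ℝ, 2 < a → 0 < ε → ε ≤ 1 →
      Tendsto (fun X : ℕ => (((Finset.Icc 1 X).filter
        (fun d => Squarefree d ∧ ¬ Good a ε d)).card : ℝ) / X) atTop (nhds 0) ∧
      AlmostAll Nat.Prime (Good a ε) ∧ AlmostAll Candidate (Good a ε) ∧
        AlmostAll PrimePair (Good a ε) ∧ AlmostAll TwicePrime (Good a ε) := by
  intro a ε ha hε hε1
  have hδ0 : (0 : ℝ) < 1 / 8 := by norm_num
  have hδ1 : (1 / 8 : ℝ) ≤ 1 := by norm_num
  have hE := excWalk a ha (1 / 8) hδ0 hδ1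
  have ht0 : (0 : ℝ) < ((1 / 8 : ℝ) / 4) ^ 2 := by positivity
  refine ⟨?_, ?_, ?_, ?_, ?_⟩
  · have h0 := rob_all a ha
    have h1 : Tendsto (fun X : ℕ => (((Finset.Icc 2 X).filter
        (fun d => Squarefree d ∧ ¬ WalkG a (1 / 8) d)).card : ℝ) / X) atTop (nhds 0) := by
      convert gen_all a _ ha ht0 _ hE
    have h2 : Tendsto (fun X : ℕ => (4 : ℝ) / X) atTop (nhds 0) :=
      tendsto_natCast_atTop_atTop.const_div_atTop 4
    have h3 := (h0.add h1).add h2
    rw [add_zero, add_zero] at h3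
    refine squeeze_zero (fun X => by positivity) (fun X => ?_) h3
    rw [← add_div, ← add_div]
    apply div_le_div_of_nonneg_right _ (by positivity)
    have h4 : (((Finset.Icc 1 X).filter (fun d => Squarefree d ∧ ¬ Good a ε d)).card : ℝ) ≤
        (((Finset.Icc 1 X).filter (fun d => Squarefree d ∧ ¬ RobG a d)).card : ℝ) +
          (((Finset.Icc 1 X).filter (fun d => Squarefree d ∧ ¬ WalkG a (1 / 8) d)).card : ℝ) +
            2 := by
      convert card_diff a ε ha hε hε1 Squarefree X
    have h5 : ∀ P : ℕ → Prop, (((Finset.Icc 1 X).filter (fun d => Squarefree d ∧ P d)).card : ℝ) ≤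
        (((Finset.Icc 2 X).filter (fun d => Squarefree d ∧ P d)).card : ℝ) + 1 := by
      intro P
      have hsub : (Finset.Icc 1 X).filter (fun d => Squarefree d ∧ P d) ⊆
          (Finset.Icc 2 X).filter (fun d => Squarefree d ∧ P d) ∪ {1} := by
        intro d hd
        rw [mem_filter, mem_Icc] at hd
        rw [mem_union, mem_filter, mem_Icc, mem_singleton]
        by_cases h : d = 1
        · exact Or.inr h
        · exact Or.inl ⟨⟨by omega, hd.1.2⟩, hd.2⟩
      have h6 := (card_le_card hsub).trans (card_union_le _ _)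
      rw [card_singleton] at h6
      exact_mod_cast h6
    have h7 : (((Finset.Icc 1 X).filter (fun d => Squarefree d ∧ ¬ RobG a d)).card : ℝ) ≤
        (((Finset.Icc 2 X).filter (fun d => Squarefree d ∧ ¬ RobG a d)).card : ℝ) + 1 := by
      convert h5 (fun d => ¬ RobG a d)
    have h8 : (((Finset.Icc 1 X).filter (fun d => Squarefree d ∧ ¬ WalkG a (1 / 8) d)).card : ℝ) ≤
        (((Finset.Icc 2 X).filter (fun d => Squarefree d ∧ ¬ WalkG a (1 / 8) d)).card : ℝ) +
          1 := by
      convert h5 (fun d => ¬ WalkG a (1 / 8) d)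
    linarith
  · refine almost a ε ha hε hε1 Nat.Prime (primes_unbounded _ fun _ h => h) ?_ ?_
    · simp only [icc_ioc]; convert rob_primes a ha
    · simp only [icc_ioc]; convert gen_primes a _ ha ht0 _ hE
  · refine almost a ε ha hε hε1 Candidate (primes_unbounded _ fun _ h => Or.inl h) ?_ ?_
    · simp only [icc_ioc]; convert rob_cand a ha; all_goals rfl
    · simp only [icc_ioc]; convert gen_cand a _ ha ht0 _ hE; all_goals rfl
  · refine almost' a ε ha hε hε1 PrimePair ?_ ?_ ?_
    · rintro d ⟨p, q, hp, hq, _, _, _, rfl⟩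
      have h1 := hp.two_le
      have h2 := hq.two_le
      nlinarith
    · simp only [icc_ioc]; convert rob_semi a ha; all_goals rfl
    · simp only [icc_ioc]; convert gen_semi a _ ha ht0 _ hE; all_goals rfl
  · refine almost' a ε ha hε hε1 TwicePrime ?_ ?_ ?_
    · rintro d ⟨p, hp, _, rfl⟩
      have h1 := hp.two_le
      omega
    · simp only [icc_ioc]; convert rob_two a ha; all_goals rfl
    · simp only [icc_ioc]; convert gen_two a _ ha ht0 _ hE; all_goals rfl

end Pool.Agent.Results.MP_321647_nt.SubsetProducts
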